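import Mathlib

/-!
A hierarchical set `E` of integers.  For `8 ^ j < |p| ≤ 8 ^ (j + 1)` membership of `p` is decided by the
index `i = (Nat.unpair j).1 ≤ j`: `p ∈ E` iff `p = 4 * 8 ^ i + 8 ^ (i + 1) * q + r` with `|r| ≤ 8 ^ i`, `r ∈ E`.
-/

namespace Pool.Agent.Q67.MSys

/-- The index used in the `j`-th annulus. -/
def ix (j : ℕ) : ℕ := (Nat.unpair j).1

lemma ix_le (j : ℕ) : ix j ≤ j := Nat.unpair_left_le j

lemma exists_ix (i N : ℕ) : ∃ j, ix j = i ∧ N ≤ j ∧ i ≤ j :=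
  ⟨Nat.pair i N, by simp [ix], Nat.right_le_pair i N, Nat.left_le_pair i N⟩

/-- The hierarchical set. -/
inductive E : ℤ → Prop
  | zero : E 0
  | step (j : ℕ) (p q r : ℤ) : (8 : ℤ) ^ j < |p| → |p| ≤ 8 ^ (j + 1) → E r → |r| ≤ 8 ^ (ix j) →
      p = 4 * 8 ^ (ix j) + 8 ^ (ix j + 1) * q + r → E p

lemma pow_lt_unique {j j' : ℕ} {x : ℤ} (h1 : (8 : ℤ) ^ j < x) (h2 : x ≤ 8 ^ (j + 1))
    (h1' : (8 : ℤ) ^ j' < x) (h2' : x ≤ 8 ^ (j' + 1)) : j = j' := by
  have a : j < j' + 1 := by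
    have : (8 : ℤ) ^ j < 8 ^ (j' + 1) := lt_of_lt_of_le h1 h2'
    exact (pow_lt_pow_iff_right₀ (by norm_num)).1 this
  have b : j' < j + 1 := by
    have : (8 : ℤ) ^ j' < 8 ^ (j + 1) := lt_of_lt_of_le h1' h2
    exact (pow_lt_pow_iff_right₀ (by norm_num)).1 this
  omega

/-- residues of size at most `8 ^ i` modulo `8 ^ (i + 1)` are unique -/
lemma res_unique {i : ℕ} {q q' r r' : ℤ} (hr : |r| ≤ 8 ^ i) (hr' : |r'| ≤ 8 ^ i)
    (h : 8 ^ (i + 1) * q + r = 8 ^ (i + 1) * q' + r') : r = r' := by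
  have h8 : (0 : ℤ) < 8 ^ i := by positivity
  rw [pow_succ] at h
  generalize (8 : ℤ) ^ i = K at *
  have h1 := abs_le.1 hr
  have h2 := abs_le.1 hr'
  have h3 : K * (8 * (q - q')) = r' - r := by ring_nf; ring_nf at h; linarith
  have h4 : q - q' = 0 := by
    by_contra hne
    rcases lt_or_gt_of_ne hne with h5 | h5
    · have : 8 * (q - q') ≤ -8 := by omega
      have : K * (8 * (q - q')) ≤ K * (-8) := mul_le_mul_of_nonneg_left this h8.le
      linarith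
    · have : 8 ≤ 8 * (q - q') := by omega
      have : K * 8 ≤ K * (8 * (q - q')) := mul_le_mul_of_nonneg_left this h8.le
      linarith
  rw [h4] at h3
  linarith

/-- location of the centres -/
lemma centre_loc {i j : ℕ} (hij : i ≤ j) {m q : ℤ} (hm : m = 4 * 8 ^ i + 8 ^ (i + 1) * q) {r : ℤ}
    (hr : |r| ≤ 8 ^ i) (h1 : (8 : ℤ) ^ j < |m + r|) (h2 : |m + r| ≤ 8 ^ (j + 1)) :
    (8 : ℤ) ^ j + 3 * 8 ^ i ≤ |m| ∧ |m| ≤ 8 ^ (j + 1) - 4 * 8 ^ i := by
  have h8 : (0 : ℤ) < 8 ^ i := by positivity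
  obtain ⟨d, rfl⟩ : ∃ d, j = i + d := ⟨j - i, by omega⟩
  have e1 : (8 : ℤ) ^ (i + d) = 8 ^ i * 8 ^ d := pow_add _ _ _
  have e2 : (8 : ℤ) ^ (i + d + 1) = 8 ^ i * (8 * 8 ^ d) := by rw [pow_succ, pow_add]; ring
  have e3 : (8 : ℤ) ^ (i + 1) = 8 ^ i * 8 := pow_succ _ _
  rw [e1] at h1
  rw [e2] at h2
  rw [e1, e2]
  rw [e3] at hm
  have hd : (8 : ℤ) ^ d = 1 ∨ (8 : ℤ) ∣ 8 ^ d := by
    rcases Nat.eq_zero_or_pos d with h | h
    · left; simp [h]
    · right; exact dvd_pow_self 8 (by omega)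
  generalize (8 : ℤ) ^ d = D at *
  generalize (8 : ℤ) ^ i = K at *
  have hmK : m = K * (4 + 8 * q) := by rw [hm]; ring
  have habs : |m| = K * |4 + 8 * q| := by rw [hmK, abs_mul, abs_of_pos h8]
  have t1 : |m + r| ≤ |m| + |r| := abs_add_le _ _
  have t2 : |m| ≤ |m + r| + |r| := by
    have := abs_add_le (m + r) (-r)
    simpa using this
  have u1 : K * D < K * (|4 + 8 * q| + 1) := by
    calc K * D < |m + r| := h1
      _ ≤ |m| + |r| := t1
      _ ≤ K * |4 + 8 * q| + K := by rw [habs]; linarith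
      _ = _ := by ring
  have u2 : K * |4 + 8 * q| ≤ K * (8 * D + 1) := by
    calc K * |4 + 8 * q| = |m| := habs.symm
      _ ≤ |m + r| + |r| := t2
      _ ≤ K * (8 * D) + K := by linarith
      _ = _ := by ring
  have v1 : D < |4 + 8 * q| + 1 := lt_of_mul_lt_mul_left u1 h8.le
  have v2 : |4 + 8 * q| ≤ 8 * D + 1 := le_of_mul_le_mul_left u2 h8
  have w1 : D + 3 ≤ |4 + 8 * q| := by
    rcases hd with rfl | ⟨c, rfl⟩
    · rcases abs_cases (4 + 8 * q) with ⟨h, _⟩ | ⟨h, _⟩ <;> omega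
    · rcases abs_cases (4 + 8 * q) with ⟨h, _⟩ | ⟨h, _⟩ <;> omega
  have w2 : |4 + 8 * q| ≤ 8 * D - 4 := by
    rcases hd with rfl | ⟨c, rfl⟩
    · rcases abs_cases (4 + 8 * q) with ⟨h, _⟩ | ⟨h, _⟩ <;> omega
    · rcases abs_cases (4 + 8 * q) with ⟨h, _⟩ | ⟨h, _⟩ <;> omega
  rw [habs]
  constructor
  · nlinarith
  · nlinarith

/-- around a centre the set `E` looks like around `0` -/
lemma centre_iff {j : ℕ} {m q : ℤ} (hm : m = 4 * 8 ^ (ix j) + 8 ^ (ix j + 1) * q)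
    (h1 : (8 : ℤ) ^ j + 3 * 8 ^ (ix j) ≤ |m|) (h2 : |m| ≤ 8 ^ (j + 1) - 4 * 8 ^ (ix j))
    {s : ℤ} (hs : |s| ≤ 8 ^ (ix j)) : E (m + s) ↔ E s := by
  have h8 : (0 : ℤ) < 8 ^ (ix j) := by positivity
  have t1 : |m + s| ≤ |m| + |s| := abs_add_le _ _
  have t2 : |m| ≤ |m + s| + |s| := by
    have := abs_add_le (m + s) (-s)
    simpa using this
  have g1 : (8 : ℤ) ^ j < |m + s| := by linarith
  have g2 : |m + s| ≤ 8 ^ (j + 1) := by linarith
  constructor
  · intro h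
    generalize hp : m + s = p at h
    cases h with
    | zero =>
      rw [hp] at g1
      have : (0 : ℤ) < 8 ^ j := by positivity
      simp at g1
      linarith
    | step j' _ q' r k1 k2 hr hr2 he =>
      rw [hp] at g1 g2
      have hj : j' = j := pow_lt_unique k1 k2 g1 g2
      subst hj
      have : 8 ^ (ix j' + 1) * q + s = 8 ^ (ix j' + 1) * q' + r := by
        have := hp.trans he
        rw [hm] at this
        linarith
      have := res_unique hs hr2 this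
      rwa [this]
  · intro h
    exact E.step j _ q s g1 g2 h hs (by rw [hm])

/-- `E` near a nonzero element of `E`. -/
theorem window {m : ℤ} (hm : E m) : ∀ _ : m ≠ 0, ∃ ℓ : ℕ, (8 : ℤ) ^ ℓ ∣ m ∧ ¬ (8 : ℤ) ^ (ℓ + 1) ∣ m ∧
    (∀ j, (8 : ℤ) ^ j < |m| → |m| ≤ 8 ^ (j + 1) → |m| + 8 ^ ℓ ≤ 8 ^ (j + 1)) ∧
    ∀ t : ℤ, |t| ≤ 8 ^ ℓ → (E (m + t) ↔ E t) := by
  induction hm with
  | zero => intro h; exact absurd rfl h
  | step j p q r k1 k2 hr hr2 he ih =>
    intro _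
    have h8 : (0 : ℤ) < 8 ^ (ix j) := by positivity
    set m0 : ℤ := 4 * 8 ^ (ix j) + 8 ^ (ix j + 1) * q with hm0
    have hp : p = m0 + r := he
    obtain ⟨c1, c2⟩ := centre_loc (ix_le j) hm0 hr2 (by rw [← hp]; exact k1) (by rw [← hp]; exact k2)
    have hdiv : (8 : ℤ) ^ (ix j) ∣ m0 := ⟨4 + 8 * q, by rw [hm0, pow_succ]; ring⟩
    have hndiv : ¬ (8 : ℤ) ^ (ix j + 1) ∣ m0 := by
      rintro ⟨c, hc⟩
      have : (8 : ℤ) ^ (ix j) * (4 + 8 * q) = 8 ^ (ix j) * (8 * c) := by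
        have h := hm0.symm.trans hc
        rw [pow_succ] at h
        linarith
      have := mul_left_cancel₀ h8.ne' this
      omega
    by_cases hr0 : r = 0
    · subst hr0
      rw [add_zero] at hp
      refine ⟨ix j, by rw [hp]; exact hdiv, by rw [hp]; exact hndiv, ?_, ?_⟩
      · intro j' a1 a2
        have : j' = j := pow_lt_unique a1 a2 k1 k2
        subst this
        rw [hp]; linarith
      · intro t ht
        rw [hp]
        exact centre_iff hm0 c1 c2 ht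
    · obtain ⟨ℓ, l1, l2, l3, l4⟩ := ih hr0
      have hr1 : |r| + 8 ^ ℓ ≤ 8 ^ (ix j) := by
        have hrne : (1 : ℤ) ≤ |r| := Int.one_le_abs hr0
        by_contra hcon
        push Not at hcon
        -- `|r| ≤ 8 ^ ix j`
        rcases Nat.eq_zero_or_pos (ix j) with h0 | hpos
        · -- then |r| = 1, and `E 1`, `E (-1)` fail
          rw [h0, pow_zero] at hr2
          have hr1 : |r| = 1 := le_antisymm hr2 hrne
          cases hr with
          | zero => simp at hr1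
          | step j' _ q' r' b1 b2 _ _ _ =>
            rw [hr1] at b1
            have : (1 : ℤ) ≤ 8 ^ j' := one_le_pow₀ (by norm_num)
            omega
        · -- find the annulus of `r`
          cases hr with
          | zero => simp at hrne
          | step j' _ q' r' b1 b2 _ _ _ =>
            have hjj : j' + 1 ≤ ix j := by
              have : (8 : ℤ) ^ j' < 8 ^ (ix j) := lt_of_lt_of_le b1 hr2
              exact (pow_lt_pow_iff_right₀ (by norm_num)).1 this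
            have := l3 j' b1 b2
            have h2 : (8 : ℤ) ^ (j' + 1) ≤ 8 ^ (ix j) := pow_le_pow_right₀ (by norm_num) hjj
            linarith
      have hℓ : ℓ < ix j := by
        have : (8 : ℤ) ^ ℓ < 8 ^ (ix j) := by
          have hrne : (1 : ℤ) ≤ |r| := Int.one_le_abs hr0
          linarith
        exact (pow_lt_pow_iff_right₀ (by norm_num)).1 this
      have hd1 : (8 : ℤ) ^ ℓ ∣ m0 := (pow_dvd_pow 8 hℓ.le).trans hdiv
      have hd2 : (8 : ℤ) ^ (ℓ + 1) ∣ m0 := (pow_dvd_pow 8 hℓ).trans hdiv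
      refine ⟨ℓ, by rw [hp]; exact dvd_add hd1 l1, ?_, ?_, ?_⟩
      · intro hcon
        rw [hp] at hcon
        exact l2 ((Int.dvd_add_right hd2).1 hcon)
      · intro j' a1 a2
        have : j' = j := pow_lt_unique a1 a2 k1 k2
        subst this
        rw [hp]
        have := abs_add_le m0 r
        linarith
      · intro t ht
        rw [hp, add_assoc]
        have h3 : |r + t| ≤ 8 ^ (ix j) := (abs_add_le r t).trans (by linarith)
        rw [centre_iff hm0 c1 c2 h3]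
        exact l4 t ht

/-- The form used later: if `m ∈ E` is divisible by `8 ^ L`, then `E` looks on `[m - 8 ^ L, m + 8 ^ L]`
like on `[- 8 ^ L, 8 ^ L]`. -/
theorem window' {m : ℤ} (hm : E m) {L : ℕ} (hL : (8 : ℤ) ^ L ∣ m) {t : ℤ} (ht : |t| ≤ 8 ^ L) :
    E (m + t) ↔ E t := by
  by_cases h0 : m = 0
  · subst h0; rw [zero_add]
  · obtain ⟨ℓ, l1, l2, _, l4⟩ := window hm h0
    apply l4
    have : L ≤ ℓ := by
      by_contra hcon
      push Not at hcon
      exact l2 ((pow_dvd_pow 8 (by omega)).trans hL)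
    exact ht.trans (pow_le_pow_right₀ (by norm_num) this)

/-- Recurrence of the origin. -/
theorem recur (i N : ℕ) : ∃ m : ℤ, (N : ℤ) ≤ m ∧ (8 : ℤ) ^ i ∣ m ∧ ∀ s : ℤ, |s| ≤ 8 ^ i → (E (m + s) ↔ E s) := by
  obtain ⟨j, hj, hN, hij⟩ := exists_ix i N
  have h8 : (0 : ℤ) < 8 ^ i := by positivity
  have hpow : (8 : ℤ) ^ i ≤ 8 ^ j := pow_le_pow_right₀ (by norm_num) hij
  have hjp : (8 : ℤ) ^ (j + 1) = 8 * 8 ^ j := by rw [pow_succ]; ring
  have hm0 : (0 : ℤ) ≤ 8 ^ (j + 1) - 4 * 8 ^ i := by rw [hjp]; linarith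
  refine ⟨8 ^ (j + 1) - 4 * 8 ^ i, ?_, ?_, ?_⟩
  · have h1 : (N : ℤ) < 8 ^ N := by exact_mod_cast Nat.lt_pow_self (by norm_num : 1 < 8)
    have h2 : (8 : ℤ) ^ N ≤ 8 ^ j := pow_le_pow_right₀ (by norm_num) hN
    rw [hjp]; linarith
  · exact dvd_sub (pow_dvd_pow 8 (by omega)) (Dvd.intro_left 4 rfl)
  · intro s hs
    obtain ⟨d, rfl⟩ : ∃ d, j = i + d := ⟨j - i, by omega⟩
    have hm : (8 : ℤ) ^ (i + d + 1) - 4 * 8 ^ i
        = 4 * 8 ^ (ix (i + d)) + 8 ^ (ix (i + d) + 1) * (8 ^ d - 1) := by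
      rw [hj, pow_succ, pow_succ, pow_add]; ring
    refine centre_iff (j := i + d) hm ?_ ?_ (by rw [hj]; exact hs)
    · rw [abs_of_nonneg hm0, hj, hjp]; linarith
    · rw [abs_of_nonneg hm0, hj]

/-- Long stretches of the `i`-th periodic pattern. -/
theorem stretch (i N : ℕ) : ∃ j, N ≤ j ∧ i < j ∧ ∀ s : ℤ, |s| ≤ 8 ^ j →
    (E (4 * 8 ^ j + 4 * 8 ^ i + s) ↔ ∃ r, |r| ≤ 8 ^ i ∧ E r ∧ (8 : ℤ) ^ (i + 1) ∣ s - r) := by
  obtain ⟨j, hj, hN, hij⟩ := exists_ix i (N + i + 1)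
  refine ⟨j, by omega, by omega, ?_⟩
  have hlt : i < j := by omega
  have h8 : (0 : ℤ) < 8 ^ i := by positivity
  have hpow : (8 : ℤ) * 8 ^ i ≤ 8 ^ j := by
    calc (8 : ℤ) * 8 ^ i = 8 ^ (i + 1) := by rw [pow_succ]; ring
      _ ≤ 8 ^ j := pow_le_pow_right₀ (by norm_num) hlt
  have hjp : (8 : ℤ) ^ (j + 1) = 8 * 8 ^ j := by rw [pow_succ]; ring
  have hdj : (8 : ℤ) ^ (i + 1) ∣ 4 * 8 ^ j := Dvd.dvd.mul_left (pow_dvd_pow 8 hlt) 4
  intro s hs
  obtain ⟨hs1, hs2⟩ := abs_le.1 hs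
  have hpos : (0 : ℤ) ≤ 4 * 8 ^ j + 4 * 8 ^ i + s := by linarith
  have g1 : (8 : ℤ) ^ j < |4 * 8 ^ j + 4 * 8 ^ i + s| := by
    rw [abs_of_nonneg hpos]; linarith
  have g2 : |4 * 8 ^ j + 4 * 8 ^ i + s| ≤ 8 ^ (j + 1) := by
    rw [abs_of_nonneg hpos, hjp]; linarith
  constructor
  · intro h
    generalize hp : 4 * 8 ^ j + 4 * 8 ^ i + s = p at h
    cases h with
    | zero =>
      rw [hp] at g1
      have : (0 : ℤ) < 8 ^ j := by positivity
      simp at g1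
      linarith
    | step j' _ q' r k1 k2 hr hr2 he =>
      rw [hp] at g1 g2
      have hjj : j' = j := pow_lt_unique k1 k2 g1 g2
      subst hjj
      rw [hj] at hr2 he
      refine ⟨r, hr2, hr, ?_⟩
      have : s - r = 8 ^ (i + 1) * q' - 4 * 8 ^ j' := by
        have := hp.trans he
        linarith
      rw [this]
      exact dvd_sub (Dvd.intro _ rfl) hdj
  · rintro ⟨r, hr, hE, c, hc⟩
    obtain ⟨c', hc'⟩ := hdj
    refine E.step j _ (c + c') r g1 g2 hE (by rw [hj]; exact hr) ?_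
    rw [hj, hc', mul_add]
    linarith

end Pool.Agent.Q67.MSys
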