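import Mathlib
import Pool.Agent.Q67.MSys.Word

/-!
The orbit closure of `(0, 1_E)` in `ℤ_[2] × (ℤ → Bool)`.
-/

open Set Filter Topology

namespace Pool.Agent.Q67.MSys

attribute [local instance] Classical.propDecidable

/-- The ambient space. -/
abbrev A : Type := ℤ_[2] × (ℤ → Bool)

instance : Fact (Nat.Prime 2) := ⟨Nat.prime_two⟩

/-- The point of the orbit of `(0, 1_E)` at time `m`. -/
noncomputable def pt (m : ℤ) : A := ((m : ℤ_[2]), fun s => decide (E (m + s)))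

/-- The ambient homeomorphism. -/
noncomputable def Th : A ≃ₜ A where
  toFun a := (a.1 + 1, fun s => a.2 (s + 1))
  invFun a := (a.1 - 1, fun s => a.2 (s - 1))
  left_inv a := by ext <;> simp
  right_inv a := by ext <;> simp
  continuous_toFun := by
    refine (continuous_fst.add continuous_const).prodMk ?_
    exact continuous_pi fun s => (continuous_apply (s + 1)).comp continuous_snd
  continuous_invFun := by
    refine (continuous_fst.sub continuous_const).prodMk ?_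
    exact continuous_pi fun s => (continuous_apply (s - 1)).comp continuous_snd

lemma Th_pt (m : ℤ) : Th (pt m) = pt (m + 1) := by
  show ((m : ℤ_[2]) + 1, fun s => decide (E (m + (s + 1)))) = _
  rw [pt]
  ext s
  · push_cast; rfl
  · simp only [show m + (s + 1) = m + 1 + s by ring]

/-- The closed invariant set. -/
def X0 : Set A := closure (range pt)

lemma Th_image : Th '' X0 = X0 := by
  rw [X0, Th.image_closure, ← range_comp]
  congr 1
  ext a
  constructor
  · rintro ⟨m, rfl⟩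
    exact ⟨m + 1, (Th_pt m).symm⟩
  · rintro ⟨m, rfl⟩
    exact ⟨m - 1, by simp [Th_pt]⟩

lemma Th_mem {a : A} (ha : a ∈ X0) : Th a ∈ X0 := by
  rw [← Th_image]; exact mem_image_of_mem _ ha

/-- The system. -/
abbrev X : Type := ↥X0

instance : CompactSpace X := isCompact_iff_compactSpace.1 (isClosed_closure.isCompact)

/-- The map. -/
noncomputable def T (x : X) : X := ⟨Th x.1, Th_mem x.2⟩

lemma T_continuous : Continuous T :=
  (Th.continuous.comp continuous_subtype_val).subtype_mk _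

lemma T_surjective : Function.Surjective T := by
  rintro ⟨a, ha⟩
  rw [← Th_image] at ha
  obtain ⟨b, hb, rfl⟩ := ha
  exact ⟨⟨b, hb⟩, rfl⟩

/-- Orbit points in the system. -/
noncomputable def op (m : ℤ) : X := ⟨pt m, subset_closure (mem_range_self m)⟩

lemma T_op (m : ℤ) : T (op m) = op (m + 1) := Subtype.ext (Th_pt m)

lemma iter_op (n : ℕ) (m : ℤ) : T^[n] (op m) = op (m + n) := by
  induction n generalizing m with
  | zero => simp
  | succ n ih => rw [Function.iterate_succ_apply, T_op, ih]; congr 1; push_cast; ring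

lemma iter_fst (n : ℕ) (x : X) : (T^[n] x).1.1 = x.1.1 + n := by
  induction n generalizing x with
  | zero => simp
  | succ n ih =>
    rw [Function.iterate_succ_apply, ih]
    show x.1.1 + 1 + (n : ℤ_[2]) = _
    push_cast; ring

lemma dense_op : Dense (range op) := by
  intro x
  rw [closure_subtype]
  have : (Subtype.val '' range op) = range pt := by
    rw [← range_comp]; rfl
  rw [this]
  exact x.2

/-- norm bound from divisibility -/
lemma norm_le_of_dvd {L : ℕ} {m : ℤ} (h : (8 : ℤ) ^ L ∣ m) : ‖(m : ℤ_[2])‖ ≤ (2 : ℝ) ^ (-(L : ℤ)) := by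
  have h2 : ((2 : ℕ) ^ L : ℤ) ∣ m := by
    refine Dvd.dvd.trans ?_ h
    have : (8 : ℤ) ^ L = ((2 : ℕ) ^ L : ℤ) * 4 ^ L := by
      push_cast
      rw [← mul_pow]; norm_num
    rw [this]
    exact Dvd.intro _ rfl
  have := (PadicInt.norm_int_le_pow_iff_dvd (p := 2) (k := m) (n := L)).2 h2
  simpa using this

lemma dvd_of_norm_le {L : ℕ} {m : ℤ} (h : ‖(m : ℤ_[2])‖ ≤ (2 : ℝ) ^ (-((3 * L : ℕ) : ℤ))) : (8 : ℤ) ^ L ∣ m := by
  have := (PadicInt.norm_int_le_pow_iff_dvd (p := 2) (k := m) (n := 3 * L)).1 (by simpa using h)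
  have h8 : (8 : ℤ) ^ L = ((2 : ℕ) ^ (3 * L) : ℤ) := by
    push_cast
    rw [pow_mul]; norm_num
  rw [h8]; exact this

/-- basic neighbourhoods of the origin -/
lemma nhds_basis {a : A} {U : Set A} (hU : U ∈ 𝓝 a) : ∃ L : ℕ, ∀ b : A,
    ‖b.1 - a.1‖ ≤ (2 : ℝ) ^ (-(L : ℤ)) → (∀ s : ℤ, |s| ≤ 8 ^ L → b.2 s = a.2 s) → b ∈ U := by
  rw [nhds_prod_eq, mem_prod_iff] at hU
  obtain ⟨V, hV, W, hW, hVW⟩ := hU
  rw [nhds_pi, Filter.mem_pi] at hW
  obtain ⟨I, hI, t, ht, hsub⟩ := hW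
  obtain ⟨ε, hε, hball⟩ := Metric.mem_nhds_iff.1 hV
  obtain ⟨L1, hL1⟩ : ∃ L1 : ℕ, ((1 : ℝ) / 2) ^ L1 < ε := exists_pow_lt_of_lt_one hε (by norm_num)
  obtain ⟨L2, hL2⟩ : ∃ L2 : ℕ, ∀ s ∈ I, |s| ≤ (L2 : ℤ) := by
    obtain ⟨B, hB⟩ := (hI.image (fun s : ℤ => |s|)).bddAbove
    refine ⟨B.toNat, fun s hs => ?_⟩
    have := hB (mem_image_of_mem (fun s : ℤ => |s|) hs)
    exact this.trans (Int.self_le_toNat B)
  refine ⟨L1 + L2, fun b h1 h2 => hVW ⟨hball ?_, hsub ?_⟩⟩
  · rw [Metric.mem_ball, dist_eq_norm]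
    refine lt_of_le_of_lt h1 (lt_of_le_of_lt ?_ hL1)
    rw [zpow_neg, zpow_natCast, one_div, inv_pow]
    apply inv_anti₀ (by positivity)
    exact pow_le_pow_right₀ (by norm_num) (by omega)
  · intro s hs
    have hs2 : |s| ≤ (8 : ℤ) ^ (L1 + L2) := by
      refine (hL2 s hs).trans ?_
      have h1 : (L2 : ℤ) < 8 ^ L2 := by exact_mod_cast Nat.lt_pow_self (by norm_num : 1 < 8)
      have h3 : (8 : ℤ) ^ L2 ≤ 8 ^ (L1 + L2) := pow_le_pow_right₀ (by norm_num) (by omega)
      linarith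
    rw [h2 s hs2]
    exact mem_of_mem_nhds (ht s)

/-- recurrence: every nonempty open set that contains `op a` contains `op b` with `b` large,
and with a different first coordinate -/
lemma recur_open {U : Set X} (hU : IsOpen U) {a : ℤ} (ha : op a ∈ U) (N : ℕ) :
    ∃ b : ℤ, (N : ℤ) ≤ b ∧ a < b ∧ op b ∈ U := by
  obtain ⟨V, hV, rfl⟩ := isOpen_induced_iff.1 hU
  obtain ⟨L, hL⟩ := nhds_basis (hV.mem_nhds ha)
  obtain ⟨K, hK⟩ : ∃ K : ℕ, L ≤ K ∧ |a| + 8 ^ L ≤ (8 : ℤ) ^ K := by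
    refine ⟨a.natAbs + L + 1, by omega, ?_⟩
    have h1 : (|a| : ℤ) < 8 ^ a.natAbs := by
      have : a.natAbs < 8 ^ a.natAbs := Nat.lt_pow_self (by norm_num)
      rw [Int.abs_eq_natAbs]
      exact_mod_cast this
    have h2 : (8 : ℤ) ^ a.natAbs ≤ 8 ^ (a.natAbs + L) := pow_le_pow_right₀ (by norm_num) (by omega)
    have h3 : (8 : ℤ) ^ L ≤ 8 ^ (a.natAbs + L) := pow_le_pow_right₀ (by norm_num) (by omega)
    have h4 : (8 : ℤ) ^ (a.natAbs + L + 1) = 8 * 8 ^ (a.natAbs + L) := by rw [pow_succ]; ring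
    rw [h4]
    have : (0 : ℤ) < 8 ^ (a.natAbs + L) := by positivity
    linarith
  obtain ⟨m, hm1, hm2, hm3⟩ := recur K (N + a.natAbs + 1)
  have haa : |a| = (a.natAbs : ℤ) := Int.abs_eq_natAbs a
  have ha2 := neg_abs_le a
  have ha3 := le_abs_self a
  refine ⟨m + a, by push_cast at hm1; linarith, by push_cast at hm1; linarith, ?_⟩
  apply hL
  · show ‖((m + a : ℤ) : ℤ_[2]) - (a : ℤ_[2])‖ ≤ _
    rw [← Int.cast_sub, add_sub_cancel_right]
    exact norm_le_of_dvd ((pow_dvd_pow 8 hK.1).trans hm2)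
  · intro s hs
    show decide (E (m + a + s)) = decide (E (a + s))
    have : |a + s| ≤ (8 : ℤ) ^ K := (abs_add_le a s).trans (by linarith [hK.2])
    have := hm3 (a + s) this
    rw [add_assoc]
    exact decide_eq_decide.2 this

/-- every nonempty open set contains an orbit point -/
lemma exists_op {U : Set X} (hU : IsOpen U) (hne : U.Nonempty) : ∃ a : ℤ, op a ∈ U := by
  obtain ⟨x, hx, ⟨a, rfl⟩⟩ := dense_op.inter_open_nonempty U hU hne
  exact ⟨a, hx⟩

lemma transitive {U V : Set X} (hU : IsOpen U) (hV : IsOpen V) (hUn : U.Nonempty) (hVn : V.Nonempty) :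
    ∃ n : ℕ, (U ∩ T^[n] ⁻¹' V).Nonempty := by
  obtain ⟨a, ha⟩ := exists_op hU hUn
  obtain ⟨b, hb⟩ := exists_op hV hVn
  obtain ⟨c, hc1, _, hc2⟩ := recur_open hV hb a.natAbs
  have hac : a ≤ c := by
    have := le_abs_self a
    rw [Int.abs_eq_natAbs] at this
    linarith
  refine ⟨(c - a).toNat, op a, ha, ?_⟩
  rw [mem_preimage, iter_op, Int.toNat_of_nonneg (by linarith)]
  simpa using hc2

/-- the forward orbit of `op 0` is dense -/
lemma dense_forward : Dense (range fun n : ℕ => T^[n] (op 0)) := by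
  rw [dense_iff_inter_open]
  intro U hU hUn
  obtain ⟨a, ha⟩ := exists_op hU hUn
  obtain ⟨c, hc1, _, hc2⟩ := recur_open hU ha 0
  refine ⟨op c, hc2, c.toNat, ?_⟩
  show T^[c.toNat] (op 0) = op c
  rw [iter_op, Int.toNat_of_nonneg (by simpa using hc1), zero_add]

lemma op_injective : Function.Injective op := by
  intro a b h
  have : (a : ℤ_[2]) = (b : ℤ_[2]) := congrArg (fun x : X => x.1.1) h
  exact_mod_cast this

lemma no_isolated (x : X) : ¬ IsOpen ({x} : Set X) := by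
  intro h
  obtain ⟨a, ha⟩ := exists_op h (singleton_nonempty x)
  obtain ⟨b, _, hab, hb⟩ := recur_open h ha 0
  rw [mem_singleton_iff] at ha hb
  have := op_injective (ha.trans hb.symm)
  omega

/-- the main property: `op 0` is isolated in its fibre -/
lemma fibre {y : X} (h1 : y.1.1 = 0) (h2 : y.1.2 0 = true) : y = op 0 := by
  apply Subtype.ext
  apply Prod.ext
  · rw [h1]; simp [op, pt]
  · funext t
    obtain ⟨L, hL⟩ : ∃ L : ℕ, |t| ≤ (8 : ℤ) ^ L := by
      refine ⟨t.natAbs, ?_⟩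
      have : t.natAbs < 8 ^ t.natAbs := Nat.lt_pow_self (by norm_num)
      rw [Int.abs_eq_natAbs]
      exact_mod_cast this.le
    have hmem : y.1 ∈ closure (range pt) := y.2
    set W : Set A := {a | ‖a.1‖ < (2 : ℝ) ^ (-((3 * L : ℕ) : ℤ))} ∩
      ((fun a : A => a.2 0) ⁻¹' {true} ∩ (fun a : A => a.2 t) ⁻¹' {y.1.2 t}) with hW
    have hWo : IsOpen W := by
      refine (isOpen_lt continuous_fst.norm continuous_const).inter (IsOpen.inter ?_ ?_)
      · exact (isOpen_discrete _).preimage ((continuous_apply (0 : ℤ)).comp continuous_snd)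
      · exact (isOpen_discrete _).preimage ((continuous_apply t).comp continuous_snd)
    have hyW : y.1 ∈ W := by
      refine ⟨?_, h2, rfl⟩
      show ‖y.1.1‖ < _
      rw [h1, norm_zero]; positivity
    obtain ⟨_, ⟨hw1, hw2, hw3⟩, ⟨m, rfl⟩⟩ := mem_closure_iff.1 hmem W hWo hyW
    have hdvd : (8 : ℤ) ^ L ∣ m := dvd_of_norm_le (le_of_lt hw1)
    have hE : E m := by
      have : decide (E (m + 0)) = true := hw2
      simpa using this
    have h3 : decide (E (m + t)) = y.1.2 t := hw3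
    rw [← h3]
    show _ = decide (E (0 + t))
    rw [zero_add]
    exact decide_eq_decide.2 (window' hE hdvd hL)

/-- The `i`-th periodic point over `z`. -/
noncomputable def ph (i : ℕ) (z : ℤ_[2]) : A :=
  (4 * 8 ^ i + z, fun s => decide (∃ r : ℤ, |r| ≤ 8 ^ i ∧ E r ∧
    ‖z + s - r‖ ≤ (2 : ℝ) ^ (-((3 * (i + 1) : ℕ) : ℤ))))

lemma Th_ph (i : ℕ) (z : ℤ_[2]) : Th (ph i z) = ph i (z + 1) := by
  refine Prod.ext ?_ ?_
  · show 4 * 8 ^ i + z + 1 = 4 * 8 ^ i + (z + 1)
    ring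
  · funext s
    show decide (∃ r : ℤ, |r| ≤ 8 ^ i ∧ E r ∧ ‖z + ((s + 1 : ℤ) : ℤ_[2]) - r‖ ≤ _) =
      decide (∃ r : ℤ, |r| ≤ 8 ^ i ∧ E r ∧ ‖z + 1 + (s : ℤ_[2]) - r‖ ≤ _)
    have : ∀ r : ℤ, z + ((s + 1 : ℤ) : ℤ_[2]) - r = z + 1 + (s : ℤ_[2]) - r := by
      intro r; push_cast; ring
    simp only [this]

lemma ph_continuous (i : ℕ) : Continuous (ph i) := by
  refine (continuous_const.add continuous_id).prodMk (continuous_pi fun s => ?_)
  rw [continuous_iff_continuousAt]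
  intro z
  have hev : ∀ᶠ z' : ℤ_[2] in 𝓝 z, (decide (∃ r : ℤ, |r| ≤ 8 ^ i ∧ E r ∧
      ‖z' + s - r‖ ≤ (2 : ℝ) ^ (-((3 * (i + 1) : ℕ) : ℤ)))) = decide (∃ r : ℤ, |r| ≤ 8 ^ i ∧ E r ∧
      ‖z + s - r‖ ≤ (2 : ℝ) ^ (-((3 * (i + 1) : ℕ) : ℤ))) := by
    have hpos : (0 : ℝ) < (2 : ℝ) ^ (-((3 * (i + 1) : ℕ) : ℤ)) := by positivity
    filter_upwards [Metric.ball_mem_nhds z hpos] with z' hz'
    rw [Metric.mem_ball, dist_eq_norm] at hz'
    apply decide_eq_decide.2
    refine exists_congr fun r => and_congr_right fun _ => and_congr_right fun _ => ?_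
    constructor
    · intro h
      have : z + (s : ℤ_[2]) - r = (z' + s - r) + (z - z') := by ring
      rw [this]
      refine (PadicInt.nonarchimedean _ _).trans ?_
      rw [norm_sub_rev] at hz'
      exact max_le h hz'.le
    · intro h
      have : z' + (s : ℤ_[2]) - r = (z + s - r) + (z' - z) := by ring
      rw [this]
      refine (PadicInt.nonarchimedean _ _).trans ?_
      exact max_le h hz'.le
  exact (continuousAt_const).congr (hev.mono fun _ h => h.symm)

/-- description of `ph` at integer points -/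
lemma ph_int (i : ℕ) (n s : ℤ) : (ph i (n : ℤ_[2])).2 s =
    decide (∃ r : ℤ, |r| ≤ 8 ^ i ∧ E r ∧ (8 : ℤ) ^ (i + 1) ∣ n + s - r) := by
  apply decide_eq_decide.2
  refine exists_congr fun r => and_congr_right fun _ => and_congr_right fun _ => ?_
  have h : (n : ℤ_[2]) + (s : ℤ_[2]) - r = ((n + s - r : ℤ) : ℤ_[2]) := by push_cast; ring
  rw [h]
  constructor
  · exact dvd_of_norm_le
  · intro h
    have h8 : (8 : ℤ) ^ (i + 1) = ((2 : ℕ) ^ (3 * (i + 1)) : ℤ) := by
      push_cast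
      rw [pow_mul]; norm_num
    rw [h8] at h
    have := (PadicInt.norm_int_le_pow_iff_dvd (p := 2) (n := 3 * (i + 1))).2 h
    simpa using this

/-- `ph i 0` belongs to the system -/
lemma ph_zero_mem (i : ℕ) : ph i 0 ∈ X0 := by
  rw [X0, mem_closure_iff_nhds]
  intro U hU
  obtain ⟨L, hL⟩ := nhds_basis hU
  obtain ⟨j, hj1, hj2, hj3⟩ := stretch i L
  refine ⟨pt (4 * 8 ^ j + 4 * 8 ^ i), hL _ ?_ ?_, mem_range_self _⟩
  · show ‖((4 * 8 ^ j + 4 * 8 ^ i : ℤ) : ℤ_[2]) - (4 * 8 ^ i + 0)‖ ≤ _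
    have : ((4 * 8 ^ j + 4 * 8 ^ i : ℤ) : ℤ_[2]) - (4 * 8 ^ i + 0) = ((4 * 8 ^ j : ℤ) : ℤ_[2]) := by
      push_cast; ring
    rw [this]
    exact norm_le_of_dvd (Dvd.dvd.mul_left (pow_dvd_pow 8 hj1) 4)
  · intro s hs
    have h1 := hj3 s (hs.trans (pow_le_pow_right₀ (by norm_num) hj1))
    have h2 := ph_int i 0 s
    rw [Int.cast_zero] at h2
    rw [h2]
    show decide (E (4 * 8 ^ j + 4 * 8 ^ i + s)) = _
    rw [decide_eq_decide, h1]
    simp only [zero_add]

lemma ph_nat_mem (i n : ℕ) : ph i (n : ℤ_[2]) ∈ X0 := by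
  induction n with
  | zero => simpa using ph_zero_mem i
  | succ n ih =>
    have := Th_mem ih
    rw [Th_ph] at this
    push_cast
    exact this

lemma ph_mem (i : ℕ) (z : ℤ_[2]) : ph i z ∈ X0 := by
  have hcl : IsClosed (ph i ⁻¹' X0) := isClosed_closure.preimage (ph_continuous i)
  have hd : Dense (range (fun n : ℕ => (n : ℤ_[2]))) := PadicInt.denseRange_natCast
  have hsub : range (fun n : ℕ => (n : ℤ_[2])) ⊆ ph i ⁻¹' X0 := by
    rintro _ ⟨n, rfl⟩; exact ph_nat_mem i n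
  have := hcl.closure_subset_iff.2 hsub
  exact this (hd z)

/-- periodic points in the system -/
noncomputable def pp (i : ℕ) (z : ℤ_[2]) : X := ⟨ph i z, ph_mem i z⟩

lemma T_pp (i : ℕ) (z : ℤ_[2]) : T (pp i z) = pp i (z + 1) := Subtype.ext (Th_ph i z)

lemma iter_pp (i n : ℕ) (z : ℤ_[2]) : T^[n] (pp i z) = pp i (z + n) := by
  induction n generalizing z with
  | zero => simp
  | succ n ih => rw [Function.iterate_succ_apply, T_pp, ih]; congr 1; push_cast; ring

lemma pp_continuous (i : ℕ) : Continuous (pp i) := (ph_continuous i).subtype_mk _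

/-- the range of `pp i` is minimal: a nonempty closed subset that is mapped into itself is everything -/
lemma pp_minimal (i : ℕ) {N : Set X} (hN : N ⊆ range (pp i)) (hne : N.Nonempty) (hcl : IsClosed N)
    (hT : ∀ x ∈ N, T x ∈ N) : N = range (pp i) := by
  refine Subset.antisymm hN ?_
  obtain ⟨x, hx⟩ := hne
  obtain ⟨z, rfl⟩ := hN hx
  have hit : ∀ n : ℕ, pp i (z + n) ∈ N := by
    intro n
    induction n with
    | zero => simpa using hx
    | succ n ih =>
      have := hT _ ih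
      rw [T_pp] at this
      push_cast
      rwa [← add_assoc]
  have hcl2 : IsClosed ((fun u : ℤ_[2] => pp i (z + u)) ⁻¹' N) :=
    hcl.preimage ((pp_continuous i).comp (continuous_const.add continuous_id))
  have hd : Dense (range (fun n : ℕ => (n : ℤ_[2]))) := PadicInt.denseRange_natCast
  have hsub : range (fun n : ℕ => (n : ℤ_[2])) ⊆ (fun u : ℤ_[2] => pp i (z + u)) ⁻¹' N := by
    rintro _ ⟨n, rfl⟩; exact hit n
  have hall := hcl2.closure_subset_iff.2 hsub
  rintro _ ⟨v, rfl⟩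
  have := hall (hd (v - z))
  simpa using this

/-- every nonempty open set contains a point `pp i z` -/
lemma exists_pp {U : Set X} (hU : IsOpen U) (hne : U.Nonempty) : ∃ i z, pp i z ∈ U := by
  obtain ⟨a, ha⟩ := exists_op hU hne
  obtain ⟨V, hV, rfl⟩ := isOpen_induced_iff.1 hU
  obtain ⟨L, hL⟩ := nhds_basis (hV.mem_nhds ha)
  obtain ⟨K, hK⟩ : ∃ K : ℕ, L ≤ K ∧ |a| + 8 ^ L ≤ (8 : ℤ) ^ K := by
    refine ⟨a.natAbs + L + 1, by omega, ?_⟩
    have h1 : (|a| : ℤ) < 8 ^ a.natAbs := by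
      have : a.natAbs < 8 ^ a.natAbs := Nat.lt_pow_self (by norm_num)
      rw [Int.abs_eq_natAbs]
      exact_mod_cast this
    have h2 : (8 : ℤ) ^ a.natAbs ≤ 8 ^ (a.natAbs + L) := pow_le_pow_right₀ (by norm_num) (by omega)
    have h3 : (8 : ℤ) ^ L ≤ 8 ^ (a.natAbs + L) := pow_le_pow_right₀ (by norm_num) (by omega)
    have h4 : (8 : ℤ) ^ (a.natAbs + L + 1) = 8 * 8 ^ (a.natAbs + L) := by rw [pow_succ]; ring
    rw [h4]
    have : (0 : ℤ) < 8 ^ (a.natAbs + L) := by positivity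
    linarith
  refine ⟨K, (a : ℤ_[2]), hL _ ?_ ?_⟩
  · show ‖4 * 8 ^ K + (a : ℤ_[2]) - (a : ℤ_[2])‖ ≤ _
    have : 4 * 8 ^ K + (a : ℤ_[2]) - (a : ℤ_[2]) = ((4 * 8 ^ K : ℤ) : ℤ_[2]) := by push_cast; ring
    rw [this]
    exact norm_le_of_dvd (Dvd.dvd.mul_left (pow_dvd_pow 8 hK.1) 4)
  · intro s hs
    show (ph K (a : ℤ_[2])).2 s = decide (E (a + s))
    rw [ph_int, decide_eq_decide]
    have has : |a + s| ≤ (8 : ℤ) ^ K := (abs_add_le a s).trans (by linarith [hK.2])
    constructor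
    · rintro ⟨r, hr, hE, c, hc⟩
      have : a + s = r := by
        apply res_unique (i := K) (q := 0) (q' := c) has hr
        linarith
      rwa [this]
    · intro h
      exact ⟨a + s, has, h, by simp⟩

lemma op_zero_not_mem (i : ℕ) : op 0 ∉ range (pp i) := by
  rintro ⟨z, hz⟩
  have h1 : 4 * 8 ^ i + z = 0 := by
    have : (pp i z).1.1 = (op 0).1.1 := by rw [hz]
    have h2 : (op 0).1.1 = 0 := by simp [op, pt]
    rw [h2] at this
    exact this
  have hz2 : z = ((-(4 * 8 ^ i) : ℤ) : ℤ_[2]) := by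
    push_cast
    linear_combination h1
  have h3 : (pp i z).1.2 0 = true := by
    rw [hz]
    show decide (E (0 + 0)) = true
    simpa using E.zero
  have h4 : (ph i z).2 0 = true := h3
  rw [hz2, ph_int] at h4
  have h5 : ∃ r : ℤ, |r| ≤ 8 ^ i ∧ E r ∧ (8 : ℤ) ^ (i + 1) ∣ -(4 * 8 ^ i) + 0 - r := by
    simpa using h4
  obtain ⟨r, hr, _, c, hc⟩ := h5
  have h8 : (0 : ℤ) < 8 ^ i := by positivity
  have hr2 := abs_le.1 hr
  rw [pow_succ] at hc
  generalize (8 : ℤ) ^ i = K at *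
  have h6 : K * (8 * c + 4) = -r := by linarith
  have h7 : 8 * c + 4 ≤ -4 ∨ 4 ≤ 8 * c + 4 := by omega
  rcases h7 with h | h
  · have := mul_le_mul_of_nonneg_left h h8.le
    linarith
  · have := mul_le_mul_of_nonneg_left h h8.le
    linarith

end Pool.Agent.Q67.MSys
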